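import Pool.Agent.SGL.StmtsU

set_option autoImplicit false

/-! Squad SGL (MP_41797f_co), row NXU: the second graph (as NXL, file of helper16). -/

namespace Pool.Agent.SGL.H84

open Pool.Agent.SGE Pool.Agent.SGP Pool.Agent.SGY Pool.Agent.SGD

theorem nxu (hN : NyvStmt) : NxuStmt := by
  intro V W G t h lev pos a c R s ρ A A' f ψ hL hh1 hG hAL hAH hinj hc ht hψ hon hpos hcc hA hA'
    x y z w hxy hzw
  -- the order of the columns
  have hpos' : ∀ u v, u ≠ t → v ≠ t → lev u = lev v → ρ (ψ u) < ρ (ψ v) → pos u < pos v := by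
    intro u v hu hv hl hr
    rcases lt_trichotomy (pos u) (pos v) with h | h | h
    · exact h
    · have := hL.inj u v hu hv hl h
      rw [this] at hr
      exact absurd hr (lt_irrefl _)
    · have := hpos v u hv hu hl.symm h
      omega
  have hposle : ∀ u v, u ≠ t → v ≠ t → lev u = lev v → pos u ≤ pos v → ρ (ψ u) ≤ ρ (ψ v) := by
    intro u v hu hv hl hr
    rcases lt_or_eq_of_le hr with h | h
    · exact (hpos u v hu hv hl h).le
    · rw [hL.inj u v hu hv hl h]
  set S : V → V → Prop := fun p q => ∃ u v, u ≠ t ∧ v ≠ t ∧ G.Adj u v ∧ lev v = lev u + 1 ∧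
    ψ u = p ∧ ψ v = q with hS
  have hSM : SMon s ρ S := by
    rintro p q p' q' ⟨u, v, hu, hv, huv, hl, rfl, rfl⟩ ⟨u', v', hu', hv', huv', hl', rfl, rfl⟩ hs hr
    rw [(hψ u hu).2, (hψ u' hu').2] at hs
    have h1 := hpos' u u' hu hu' hs hr
    have h2 := hL.mono u v u' v' hu hv hu' hv' huv huv' hl hs.symm (by omega) h1
    exact hposle v v' hv hv' (by omega) h2
  -- edges inside a level
  have keyh : ∀ u v, u ≠ t → v ≠ t → G.Adj u v → lev u = lev v → pos u < pos v →
      LE a c R s ρ S (ψ u) (ψ v) ∨ A (ψ u) (ψ v) ∨ A' (ψ u) (ψ v) := by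
    intro u v hu hv huv hl hp
    by_cases h0 : lev u = 0
    · right; left
      exact hA u v huv hu h0 (Or.inr ⟨by omega, hp⟩)
    · by_cases h1 : lev u = h
      · right; right
        exact hA' u v huv hu h1 (Or.inr ⟨by omega, hp⟩)
      · left
        have h2 := hL.le u hu
        refine LE.hh (hψ u hu).1 (hψ v hv).1 (by rw [(hψ u hu).2, (hψ v hv).2, hl])
          (hpos u v hu hv hl hp) ?_
        intro r hr hsr hrr
        obtain ⟨w, hw, rfl⟩ := hon r hr
        rw [(hψ u hu).2, (hψ w hw).2] at hsr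
        exact hL.path u v w hu hv hw huv hl (by omega) (by omega) hsr
          ⟨hpos' u w hu hw hsr.symm hrr.1, hpos' w v hw hv (hsr.trans hl) hrr.2⟩
  have key2 : ∀ u v, u ≠ t → v ≠ t → G.Adj u v → lev u ≤ lev v →
      (LE a c R s ρ S (ψ u) (ψ v) ∨ A (ψ u) (ψ v) ∨ A' (ψ u) (ψ v)) ∨
      (LE a c R s ρ S (ψ v) (ψ u) ∨ A (ψ v) (ψ u) ∨ A' (ψ v) (ψ u)) := by
    intro u v hu hv huv hle
    have hne : u ≠ v := huv.ne
    rcases lt_or_eq_of_le hle with hlt | heq
    · rcases hL.next u v hu hv huv hlt with h1 | ⟨h0, h1, h2⟩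
      · left; left
        exact LE.uu (hψ u hu).1 (hψ v hv).1 (by rw [(hψ u hu).2, (hψ v hv).2, h1])
          ⟨u, v, hu, hv, huv, h1, rfl, rfl⟩
      · left; left
        have hcu : ψ u = c := hcc u hu h0 h1
        rw [hcu]
        refine LE.cc hc (hψ v hv).1 ?_ ?_
        · rw [← hcu, (hψ u hu).2, (hψ v hv).2]
          exact hlt
        · intro r hr hsr
          obtain ⟨w, hw, rfl⟩ := hon r hr
          rw [(hψ v hv).2, (hψ w hw).2] at hsr
          exact hposle v w hv hw hsr.symm (h2 w hw hsr)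
    · rcases lt_trichotomy (pos u) (pos v) with h | h | h
      · exact Or.inl (keyh u v hu hv huv heq h)
      · exact absurd (hL.inj u v hu hv heq h) hne
      · exact Or.inr (keyh v u hv hu huv.symm heq.symm h)
  have keyt : ∀ u, G.Adj u t →
      LE a c R s ρ S (ψ u) (ψ t) ∨ A (ψ u) (ψ t) ∨ A' (ψ u) (ψ t) := by
    intro u hut
    have hu : u ≠ t := hut.ne
    by_cases h0 : lev u = 0
    · right; left
      exact hA u t hut hu h0 (Or.inl rfl)
    · by_cases h1 : lev u = h
      · right; right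
        exact hA' u t hut hu h1 (Or.inl rfl)
      · left
        have h2 := hL.le u hu
        rw [ht]
        refine LE.aa (hψ u hu).1 ?_
        intro r hr hsr
        obtain ⟨w, hw, rfl⟩ := hon r hr
        rw [(hψ u hu).2, (hψ w hw).2] at hsr
        exact hposle w u hw hu hsr (hL.last u w hut (by omega) (by omega) hw hsr)
  have key : ∀ u v, G.Adj u v →
      (LE a c R s ρ S (ψ u) (ψ v) ∨ A (ψ u) (ψ v) ∨ A' (ψ u) (ψ v)) ∨
      (LE a c R s ρ S (ψ v) (ψ u) ∨ A (ψ v) (ψ u) ∨ A' (ψ v) (ψ u)) := by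
    intro u v huv
    by_cases hv : v = t
    · subst hv
      exact Or.inl (keyt u huv)
    · by_cases hu : u = t
      · subst hu
        exact Or.inr (keyt v huv.symm)
      · rcases le_total (lev u) (lev v) with h | h
        · exact key2 u v hu hv huv h
        · exact (key2 v u hv hu huv.symm h).symm
  have hsh : ∀ p ∈ R, s p ≤ h := by
    intro p hp
    obtain ⟨w, hw, rfl⟩ := hon p hp
    rw [(hψ w hw).2]
    exact hL.le w hw
  have hX := hN a c R h s ρ S A A' f hG hinj hSM hh1 hsh hAL hAH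
  intro hx
  rcases key x y hxy with h1 | h1 <;> rcases key z w hzw with h2 | h2
  · exact hX _ _ _ _ h1 h2 hx
  · exact hX _ _ _ _ h1 h2 (xs_swap (xs_rev (xs_swap hx)))
  · exact hX _ _ _ _ h1 h2 (xs_rev hx)
  · exact hX _ _ _ _ h1 h2 (xs_rev (xs_swap (xs_rev (xs_swap hx))))

end Pool.Agent.SGL.H84
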