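import Pool.Agent.SGL.StmtsA

set_option autoImplicit false

/-! Squad SGL (MP_41797f_co), row TFR: triangle-free planar graphs are in the class. -/

namespace Pool.Agent.SGL.H84

open Pool.Agent.SGE Pool.Agent.SGP Pool.Agent.SGY Pool.Agent.SGD

theorem tfr (mxt : MxtStmt) : TfrStmt := by
  classical
  intro n G hG hf a
  obtain ⟨T, hT, hGT⟩ := mxt G hG
  refine ⟨T, hT, hGT, ?_⟩
  intro x y z hxy hyz hzx
  exact absurd (SimpleGraph.is3Clique_triple_iff.2 ⟨hxy, hzx.symm, hyz⟩) (hf {x, y, z})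

end Pool.Agent.SGL.H84
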